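import Pool.Agent.MCG.Main19

/-!
MP_3d3f53_co, Q1 (negated form): a tournament with predictability 2/3 and McGarvey number
larger than 5.
-/

namespace Pool.Agent.Results.MP_3d3f53_co.Counterexample

open _root_.MCG

/-- There is a finite tournament with predictability `α* = 2/3` and McGarvey number larger
than `5`. -/
theorem result : ∃ (V : Type) (_ : Fintype V) (E : V → V → Prop),
    IsTourn E ∧ IsPred E (2 / 3) ∧ 5 < mcgarvey E :=
  main19

end Pool.Agent.Results.MP_3d3f53_co.Counterexample
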